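import Pool.Agent.RobinBall.H1Form

/-!
MP_e2972c_an, Q1 (Antunes, Freitas, Krejcirik), positive answer: among sets with prescribed boundary
measure the ball maximises the first Robin eigenvalue with negative parameter.

`Em m` is Euclidean space of dimension `n = m + 1`. `IsLipDom Ω`: near every boundary point `Ω` is,
after a linear isometry, the region below the graph of a Lipschitz function. `IsH1 σ Ω u G τ`: the
triple `(u, G, τ)` is a limit, in `L²(Ω)`, `L²(Ω)` and `L²(∂Ω)`, of triples `(φ, ∇φ, φ)` with `φ` of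
class `C¹` and with compact support on the whole space (on a bounded Lipschitz domain: `u` is in
`H¹(Ω)`, `G` is its gradient and `τ` its trace). `h1Quotients σ α Ω` and `c1Quotients σ α Ω`: the
Rayleigh quotients `(∫_Ω |G|² + α ∫_∂Ω τ² dσ) / ∫_Ω u²` of these triples, and of the `C¹` functions.
The surface measure `σ` is any positive finite multiple of the `m`-dimensional Hausdorff measure.
-/

set_option autoImplicit false

namespace Pool.Agent.Results.MP_e2972c_an.BallMaximises

open MeasureTheory Metric Pool.Agent.RobinBall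
open scoped ENNReal

theorem result (m : ℕ) (hm : 1 ≤ m) (α : ℝ) (hα : α < 0)
    (κ : ℝ≥0∞) (hκ0 : κ ≠ 0) (hκ1 : κ ≠ ⊤) (σ : Measure (EuclideanSpace ℝ (Fin (m + 1))))
    (hσ : σ = κ • Measure.hausdorffMeasure (m : ℝ))
    (Ω : Set (EuclideanSpace ℝ (Fin (m + 1)))) (hO : IsOpen Ω) (hne : Ω.Nonempty)
    (hb : Bornology.IsBounded Ω) (hL : IsLipDom Ω)
    (c : EuclideanSpace ℝ (Fin (m + 1))) (ρ : ℝ) (hρ : 0 < ρ)
    (harea : σ (frontier (ball c ρ)) = σ (frontier Ω)) :
    ∃ l L : ℝ,
      IsGLB (h1Quotients σ α Ω) l ∧ IsGLB (c1Quotients σ α Ω) l ∧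
      IsGLB (h1Quotients σ α (ball c ρ)) L ∧ IsGLB (c1Quotients σ α (ball c ρ)) L ∧
      l ≤ L := by
  subst hσ
  exact robin_h1 hm hα hκ0 hκ1 hO hne hb hL c hρ harea

end Pool.Agent.Results.MP_e2972c_an.BallMaximises
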